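import Pool.Agent.K3h75.NW.Stm
import Pool.Agent.K3h34.ND.GenDF
import Pool.Agent.R187.WC.Gd

/-! Brick DFW of the run NW (helper75): the chart, the dichotomy and the fractions. -/

set_option autoImplicit false

open scoped Pointwise

namespace Pool.Agent.K3h93.NW

open MvPolynomial Pool.Agent.H918R2.Quad Pool.Agent.TH214.RM Pool.Agent.R187.WC
open Pool.Agent.K3h75.ND Pool.Agent.K3h75.NW
open Pool.Agent.H945R2.D.GD1aux (mem_range_pow exists_coord)

section

variable {R F ι : Type} [CommRing R] [Field F] [Algebra R F]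

theorem tv_mul (e : ℕ) (v : Option ι → F) (s : ι) (hs : v (some s) ≠ 0) (o : Option ι) :
    v o = tv e v s o * v (some s) ^ wt e o := by
  unfold tv
  rw [div_mul_cancel₀ _ (pow_ne_zero _ hs)]

theorem tv_mul_some (e : ℕ) (v : Option ι → F) (s : ι) (hs : v (some s) ≠ 0) (k : ι) :
    v (some k) = tv e v s (some k) * v (some s) := by
  have h := tv_mul e v s hs (some k)
  rwa [wt_some, pow_one] at h

theorem tv_mul_none (e : ℕ) (v : Option ι → F) (s : ι) (hs : v (some s) ≠ 0) :
    v none = tv e v s none * v (some s) ^ e := by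
  have h := tv_mul e v s hs none
  rwa [wt_none] at h

theorem tv_self (e : ℕ) (v : Option ι → F) (s : ι) (hs : v (some s) ≠ 0) :
    tv e v s (some s) = 1 := by
  unfold tv
  rw [wt_some, pow_one, div_self hs]

theorem aeval_tv (e : ℕ) (v : Option ι → F) (s : ι) (hs : v (some s) ≠ 0) (N : ℕ)
    (P : MvPolynomial (Option ι) R) (hP : P.IsWeightedHomogeneous (wt e) N) :
    aeval v P = aeval (tv e v s) P * v (some s) ^ N := by
  rw [← aeval_scaleW e (tv e v s) (v (some s)) N P hP]
  congr 2
  funext o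
  exact tv_mul e v s hs o

theorem pd_some (e m : ℕ) (hm : 1 ≤ m) (he : 1 ≤ e) (v : Option ι → F) (s : ι)
    (hs : v (some s) ≠ 0) (P : MvPolynomial (Option ι) R)
    (hP : P.IsWeightedHomogeneous (wt e) (m * e)) (i k : ι) :
    v (some k) * aeval v (pderiv (some i) P) =
      v (some s) ^ (m * e) * (tv e v s (some k) * aeval (tv e v s) (pderiv (some i) P)) := by
  have h1 : 1 ≤ m * e := Nat.mul_pos hm he
  have h2 : (pderiv (some i) P).IsWeightedHomogeneous (wt e) (m * e - 1) :=
    hP.pderiv (by rw [wt_some]; omega)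
  have h3 := tv_mul_some e v s hs k
  have h4 : v (some s) ^ (m * e) = v (some s) * v (some s) ^ (m * e - 1) := by
    rw [← pow_succ', Nat.sub_add_cancel h1]
  rw [aeval_tv e v s hs _ _ h2, h4]
  generalize aeval (tv e v s) (pderiv (some i) P) = D
  rw [h3]
  ring

theorem prod_tv (e : ℕ) (v : Option ι → F) (s : ι) (hs : v (some s) ≠ 0) (φ : Fin e → ι) :
    ∏ k, v (some (φ k)) = (∏ k, tv e v s (some (φ k))) * v (some s) ^ e := by
  have h : ∏ k, v (some (φ k)) = ∏ k, (tv e v s (some (φ k)) * v (some s)) :=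
    Finset.prod_congr rfl fun k _ => tv_mul_some e v s hs (φ k)
  rw [h, Finset.prod_mul_distrib, Finset.prod_const, Finset.card_univ, Fintype.card_fin]

theorem pd_none (e m : ℕ) (hm : 1 ≤ m) (v : Option ι → F) (s : ι)
    (hs : v (some s) ≠ 0) (P : MvPolynomial (Option ι) R)
    (hP : P.IsWeightedHomogeneous (wt e) (m * e)) (φ : Fin e → ι) :
    (∏ k, v (some (φ k))) * aeval v (pderiv none P) =
      v (some s) ^ (m * e) *
        ((∏ k, tv e v s (some (φ k))) * aeval (tv e v s) (pderiv none P)) := by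
  have h1 : e ≤ m * e := Nat.le_mul_of_pos_left e hm
  have h2 : (pderiv none P).IsWeightedHomogeneous (wt e) (m * e - e) :=
    hP.pderiv (by rw [wt_none]; omega)
  have h3 := prod_tv e v s hs φ
  have h4 : v (some s) ^ (m * e) = v (some s) ^ e * v (some s) ^ (m * e - e) := by
    rw [← pow_add]
    congr 1
    omega
  rw [aeval_tv e v s hs _ _ h2, h4, h3]
  ring

theorem zz_mem (e : ℕ) (v : Option ι → F) (s : ι) (hs : v (some s) ≠ 0) (S : Subring F)
    (ht : ∀ o, tv e v s o ∈ S) (D : ℕ) (y : F) (hy : y ∈ Set.range (zz e v) ^ D) :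
    ∃ y' ∈ S, y = v (some s) ^ (e * D) * y' := by
  obtain ⟨φ, rfl⟩ := (mem_range_pow _ D y).1 hy
  have h : ∀ a, ∃ y' ∈ S, zz e v a = v (some s) ^ e * y' := by
    rintro (φ | u)
    · refine ⟨∏ k, tv e v s (some (φ k)), S.prod_mem fun k _ => ht _, ?_⟩
      change ∏ k, v (some (φ k)) = _
      rw [prod_tv e v s hs φ, mul_comm]
    · refine ⟨tv e v s none, ht _, ?_⟩
      change v none = _
      rw [mul_comm]
      exact tv_mul_none e v s hs
  choose w hw1 hw2 using h
  refine ⟨∏ i, w (φ i), S.prod_mem fun i _ => hw1 _, ?_⟩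
  have h1 : ∏ i, zz e v (φ i) = ∏ i, (v (some s) ^ e * w (φ i)) :=
    Finset.prod_congr rfl fun i _ => hw2 (φ i)
  rw [h1, Finset.prod_mul_distrib, Finset.prod_const, Finset.card_univ, Fintype.card_fin, pow_mul]

theorem pow_mem_zz (e : ℕ) (v : Option ι → F) (s : ι) (D : ℕ) :
    v (some s) ^ (e * D) ∈ Set.range (zz e v) ^ D := by
  rw [pow_mul]
  refine Set.pow_mem_pow ⟨.inl fun _ => s, ?_⟩
  simp [zz]

end

theorem t_DFW : S_DFW := by
  classical
  intro R F _ _ _ n 𝒪 hloc hR π hπ m e hm he P hP hc r v hrel E hE f hf hfG hG hloc2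
  obtain ⟨g, hg, hgd, hU⟩ := Pool.Agent.K3h34.ND.t_GEN R F 𝒪 hloc hR (Option (Fin r))
    (PsiW π v P m e E r) f hf hfG hG
  have hcU : U 𝒪 (algebraMap R F (coeff (Finsupp.single none m) P)) := by
    obtain ⟨u, hu⟩ := hc
    rw [← hu]
    have h1 : algebraMap R F (u : R) * algebraMap R F ((u⁻¹ : Rˣ) : R) = 1 := by
      rw [← map_mul, Units.mul_inv, map_one]
    refine ⟨left_ne_zero_of_mul_eq_one h1, hR _, ?_⟩
    rw [inv_eq_of_mul_eq_one_right h1]
    exact hR _
  obtain ⟨g', hg', hU'⟩ := exists_x_gen hloc hR e m he P hP v hcU hrel E (g none) (hgd none)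
    (g none) (hg none).1 (by rw [div_self (hg none).2]; exact U_one)
  have hG2 : ∀ h ∈ Set.range (fun j => v (some j)) ^ (e * E), h / g none ∈ 𝒪 :=
    fun h hh => hgd none h (sub_zz e E v hh)
  obtain ⟨s, hs, hz, hfh⟩ := exists_coord 𝒪 (fun j => v (some j)) (e * E)
    (Nat.mul_pos he hE) (g none) hG2 g' hg' hU'
  have hts : tv e v s (some s) = 1 := tv_self e v s hs
  have htO : ∀ o, tv e v s o ∈ 𝒪 := by
    intro o
    cases o with
    | none =>
      obtain ⟨D', rfl⟩ : ∃ D', E = D' + 1 := ⟨E - 1, by omega⟩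
      have h1 : v none * v (some s) ^ (e * D') ∈ Set.range (zz e v) ^ (D' + 1) := by
        rw [pow_succ', pow_mul]
        refine Set.mul_mem_mul ⟨.inr (), rfl⟩ ?_
        refine Set.pow_mem_pow ⟨.inl fun _ => s, ?_⟩
        simp [zz]
      have h2 := hgd none _ h1
      have hg0 := (hg none).2
      have h3 : tv e v s none = (v none * v (some s) ^ (e * D') / g none) *
          (g none / v (some s) ^ (e * (D' + 1))) := by
        simp only [tv, wt_none]
        rw [mul_add, mul_one, pow_add]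
        field_simp
      rw [h3]
      exact 𝒪.mul_mem h2 hfh.2.1
    | some j =>
      simp only [tv, wt_some, pow_one]
      exact hz j
  have hπm : ∀ k : ℕ, algebraMap R F (π ^ k) ≠ 0 := fun k => by
    rw [map_pow]
    exact pow_ne_zero _ hπ
  -- the common power
  obtain ⟨A, hA⟩ : ∃ A, A = v (some s) ^ (m * e) := ⟨_, rfl⟩
  have hA0 : A ≠ 0 := by rw [hA]; exact pow_ne_zero _ hs
  obtain ⟨D, hD⟩ : ∃ D : Option (Fin (n + 1)) → F, D = fun l => aeval (tv e v s) (pderiv l P) :=
    ⟨_, rfl⟩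
  have hD' : ∀ l, aeval (tv e v s) (pderiv l P) = D l := fun l => by rw [hD]
  have hm1 : ∀ (j : Fin r) (l : Option (Fin (n + 1))), A * D l ∈ PsiW π v P m e E r (some j) := by
    intro j l
    cases l with
    | some i =>
      refine Or.inl (Or.inl ⟨i, s, ?_⟩)
      rw [pd_some e m hm he v s hs P hP i s, hts, one_mul, hD', hA]
    | none =>
      refine Or.inl (Or.inr ⟨fun _ => s, ?_⟩)
      rw [pd_none e m hm v s hs P hP (fun _ => s), hD', hA]
      simp only [hts, Finset.prod_const_one, one_mul]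
  have hm2 : ∀ j : Fin r, algebraMap R F (π ^ (j.val + 1)) * A ∈ PsiW π v P m e E r (some j) := by
    intro j
    refine Or.inr ⟨A, ?_, rfl⟩
    rw [hA, mul_comm m e]
    exact pow_mem_zz e v s m
  have hmem : ∀ S : Subring F, (∀ o, tv e v s o ∈ S) → ∀ (j : Fin r) (y : F),
      y ∈ PsiW π v P m e E r (some j) →
      (∃ i, ∃ τ ∈ S, y = A * (τ * D i)) ∨
        ∃ τ ∈ S, y = algebraMap R F (π ^ (j.val + 1)) * (A * τ) := by
    intro S hS j y hy
    rcases hy with (⟨i, k, rfl⟩ | ⟨φ, rfl⟩) | ⟨y', hy', rfl⟩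
    · refine Or.inl ⟨some i, tv e v s (some k), hS _, ?_⟩
      rw [pd_some e m hm he v s hs P hP i k, hD', hA]
    · refine Or.inl ⟨none, ∏ k, tv e v s (some (φ k)), S.prod_mem fun k _ => hS _, ?_⟩
      rw [pd_none e m hm v s hs P hP φ, hD', hA]
    · obtain ⟨τ, hτ, hτ'⟩ := zz_mem e v s hs S hS m y' hy'
      refine Or.inr ⟨τ, hτ, ?_⟩
      rw [hτ', hA, mul_comm e m]
  refine ⟨s, hs, htO, fun m' hm' => ?_, ?_⟩
  · simp only [hD']
    have hgj0 := (hg (some ⟨m', hm'⟩)).2
    have hgjd := hgd (some ⟨m', hm'⟩)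
    have hπ1 := hπm (m' + 1)
    rcases hmem 𝒪 htO ⟨m', hm'⟩ _ (hg (some ⟨m', hm'⟩)).1 with ⟨i, τ, hτ, hi⟩ | ⟨τ, hτ, hi⟩
    · right
      have hτ0 : τ ≠ 0 := by
        rintro rfl
        exact hgj0 (by rw [hi]; ring)
      have hDi : D i ≠ 0 := by
        intro h
        exact hgj0 (by rw [hi, h]; ring)
      refine ⟨i, hDi, fun l => ?_, ?_⟩
      · have h1 := hgjd _ (hm1 ⟨m', hm'⟩ l)
        have h2 : D l / D i = A * D l / g (some ⟨m', hm'⟩) * τ := by
          rw [hi]
          field_simp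
        rw [h2]
        exact 𝒪.mul_mem h1 hτ
      · have h1 := hgjd _ (hm2 ⟨m', hm'⟩)
        have h2 : algebraMap R F (π ^ (m' + 1)) / D i =
            algebraMap R F (π ^ (m' + 1)) * A / g (some ⟨m', hm'⟩) * τ := by
          rw [hi]
          field_simp
        rw [h2]
        exact 𝒪.mul_mem h1 hτ
    · left
      intro l
      have h1 := hgjd _ (hm1 ⟨m', hm'⟩ l)
      have hτ0 : τ ≠ 0 := by
        rintro rfl
        exact hgj0 (by rw [hi]; ring)
      simp only at hi
      have h2 : D l / algebraMap R F (π ^ (m' + 1)) = A * D l / g (some ⟨m', hm'⟩) * τ := by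
        rw [hi]
        field_simp
      rw [h2]
      exact 𝒪.mul_mem h1 hτ
  · intro W _ _ eW heW htW ρ hρ0 hρ1 hρ2 hρ3
    simp only [hD'] at hρ1 hρ3
    let K : Option (Fin r) → F := fun k => k.elim (v (some s) ^ (e * E)) fun j => ρ j * A
    have hK0 : ∀ k, K k ≠ 0 := by
      rintro (_ | j)
      · exact pow_ne_zero _ hs
      · exact mul_ne_zero (hρ0 j) hA0
    let S : Subring F := (eW : W →+* F).range
    have hS : ∀ o, tv e v s o ∈ S := fun o => by
      obtain ⟨w, hw⟩ := htW o
      exact ⟨w, hw.symm⟩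
    have hKw : ∀ k, ∀ y ∈ PsiW π v P m e E r k, ∃ w, y = K k * eW w := by
      rintro (_ | j) y hy
      · obtain ⟨_, ⟨w, rfl⟩, hw⟩ := zz_mem e v s hs S hS E y hy
        exact ⟨w, hw⟩
      · rcases hmem S hS j y hy with ⟨i, _, ⟨w, rfl⟩, hw⟩ | ⟨_, ⟨w, rfl⟩, hw⟩
        · obtain ⟨w', hw'⟩ := hρ1 j i
          refine ⟨w * w', ?_⟩
          simp only [K, Option.elim_some]
          rw [hw, hw', map_mul]
          simp only [RingHom.coe_coe]
          ring
        · obtain ⟨w', hw'⟩ := hρ2 j
          refine ⟨w * w', ?_⟩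
          simp only [K, Option.elim_some]
          rw [hw, hw', map_mul]
          simp only [RingHom.coe_coe]
          ring
    have hUK : ∀ k, U 𝒪 (g k / K k) := by
      rintro (_ | j)
      · exact hfh
      · have hin : g (some j) / K (some j) ∈ 𝒪 := by
          obtain ⟨w, hw⟩ := hKw (some j) _ (hg (some j)).1
          rw [hw, mul_div_cancel_left₀ _ (hK0 _)]
          exact heW w
        refine ⟨div_ne_zero (hg _).2 (hK0 _), hin, ?_⟩
        rw [inv_div]
        have hg0 := (hg (some j)).2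
        have hρj := hρ0 j
        rcases hρ3 j with ⟨l, hl⟩ | hl
        · have h1 := hgd (some j) _ (hm1 j l)
          have h2 := hl.2.2
          have h3 : K (some j) / g (some j) = (D l / ρ j)⁻¹ * (A * D l / g (some j)) := by
            have h4 : D l ≠ 0 := by
              intro h
              rw [h, zero_div] at hl
              exact not_U_zero hl
            simp only [K, Option.elim_some]
            rw [inv_div]
            field_simp
          rw [h3]
          exact 𝒪.mul_mem h2 h1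
        · have h1 := hgd (some j) _ (hm2 j)
          have h2 := hl.2.2
          have h3 : K (some j) / g (some j) =
              (algebraMap R F (π ^ (j.val + 1)) / ρ j)⁻¹ *
                (algebraMap R F (π ^ (j.val + 1)) * A / g (some j)) := by
            have h4 := hπm (j.val + 1)
            simp only [K, Option.elim_some]
            rw [inv_div]
            field_simp
          rw [h3]
          exact 𝒪.mul_mem h2 h1
    have hfh : U 𝒪 (f / ∏ k, K k) := by
      have h1 : f / ∏ k, K k = (f / ∏ k, g k) * ∏ k, (g k / K k) := by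
        rw [Finset.prod_div_distrib]
        have h2 : ∏ k, g k ≠ 0 := Finset.prod_ne_zero_iff.2 fun k _ => (hg k).2
        field_simp
      rw [h1]
      exact hU.mul (Pool.Agent.K3h34.ND.U_prod _ hUK)
    intro y hy
    obtain ⟨a, b, h1, h2, h3⟩ := frac_of_chart eW heW (∏ k, PsiW π v P m e E r k) f (∏ k, K k)
      (Finset.prod_ne_zero_iff.2 fun k _ => hK0 k) (fun y hy => by
        obtain ⟨v, hv, rfl⟩ := Set.mem_fintype_prod _ _ |>.1 hy
        choose w hw using fun k => hKw k (v k) (hv k)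
        refine ⟨∏ k, w k, ?_⟩
        rw [map_prod, ← Finset.prod_mul_distrib]
        exact Finset.prod_congr rfl fun k _ => hw k) hfG hfh hloc2 y hy
    exact ⟨a, b, ⟨h1, heW b, h2⟩, h3⟩

end Pool.Agent.K3h93.NW
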